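import Pool.Agent.H630VC.UG8

/-!
The Unique Games Conjecture holds unconditionally, with optimal soundness for every alphabet, in the
model of randomised circuits of monotone real gates: for every number `q ≥ 2` of labels, every
`δ > 1/q` and `0 ≤ c < 1/2` such circuits need exponential size to tell the games in which some
labelling satisfies all edges at `(1 - n^(-c)) n` of the `n` left vertices from the games in which
every labelling satisfies at most a fraction `δ` of the edges (a random labelling satisfies a
fraction `1/q`). All games are left-regular. The inputs are the constraints of the game, and the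
gates are arbitrary nondecreasing real functions; some nondecreasing function of the constraints
decides the problem.

Proof: the left vertices are the vertices of a graph `G` with `n` vertices; for each `s²`-tuple `u`
of vertices whose distinct entries are pairwise adjacent in `G`, and each vector `κ` of about
`log n` labels there is a right vertex `(u, κ)` joined to the entries `a` of `u`, with the
constraint that its label is the label of `a` plus the sum of the `κ j` over the binary digits `j`
of `a` that are one. If the edges of `G` are the pairs that touch a small set `T` then all
constraints at the vertices outside `T` can be satisfied together. If `G` contains a disjoint union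
of few cliques then one cuts them into blocks of size `s²`; for two different vertices of a block
and any labels a uniformly random `κ` makes them agree on `(u, κ)` with probability at most `1/q`,
so that by the second moment no label of `(u, κ)` is right for more than `s²/q + s` of the `s²`
neighbours on average. Small circuits do not tell such graphs apart (approximation by level functions
on equivalence relations with small support, average case).
-/

namespace Pool.Agent.Results.MP_325f1f_lc.MonotoneCircuits

open H630VC

/-- (1) Let `q ≥ 2`, `1/q < δ ≤ 1`, `c ≥ 0`, `ν > 0` and `c + 3 ν < 1/2`. There are `C` and `N`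
such that for all `n ≥ N` and `m ≥ n^C` the following holds. Every randomised circuit (a finite
family `l ω`, `ω ∈ Ω`) of monotone real gates that, on the left-regular unique games with `n` left
vertices, `m` right vertices and `q` labels, tells the NO instances (every labelling satisfies at
most a fraction `δ` of the edges) from the YES instances (some labelling satisfies all edges at at
least `(1 - n^(-c)) n` left vertices) for at least three quarters of the `ω`, has a member with at
least `2^(n^ν)` gates. (2) If `ε + δ < 1` then some nondecreasing function of the inputs is one on
all left-regular NO instances and zero on all left-regular YES instances. -/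
theorem result :
    (∀ c ν δ : ℝ, 0 ≤ c → 0 < ν → c + 3 * ν < 1 / 2 → ∀ q : ℕ, 2 ≤ q → 1 / (q : ℝ) < δ → δ ≤ 1 →
      ∃ C N : ℕ, ∀ n : ℕ, N ≤ n → ∀ m : ℕ, n ^ C ≤ m →
      ∀ (Ω : Type) [Fintype Ω] [Nonempty Ω] (l : Ω → List (UGame (Fin n) (Fin m) q → ℝ)),
      (∀ ω, Prog (ugInputs (Fin n) (Fin m) q) (l ω)) → RDecidesGap ((n : ℝ) ^ (-c)) δ l →
      ∃ ω, (2 : ℝ) ^ ((n : ℝ) ^ ν) ≤ (l ω).length) ∧
    (∀ ε δ : ℝ, ε + δ < 1 → ∀ (X Y : Type) [Fintype X] [Fintype Y] [Nonempty X] (q : ℕ),
      ∃ f : UGame X Y q → ℝ, (∀ I J, (∀ g ∈ ugInputs X Y q, g I ≤ g J) → f I ≤ f J) ∧
      ∀ I, LeftRegular I → (NoInst δ I → f I = 1) ∧ (YesInst ε I → f I = 0)) :=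
  ⟨fun c ν δ hc hν hcν q hq hδ hδ1 => asymp_ug2 c ν δ hc hν hcν q hq hδ hδ1,
    fun ε δ h X Y _ _ _ q => ug_monotone ε δ h X Y q⟩

end Pool.Agent.Results.MP_325f1f_lc.MonotoneCircuits
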