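import Mathlib
import Pool.Agent.H562R2.SdpGlobal
import Pool.Agent.H562R2.KVSound

/-!
Exact spectral-gap threshold `lam = 1 - (1 - ε)^2` of the pairwise semidefinite relaxation of
unique games on expanders.
-/

set_option autoImplicit false

namespace Pool.Agent.Results.MP_325f1f_lc.SdpExpander

open Pool.Agent.H562R2

/-- Rounding above the threshold, and integrality gaps at the threshold. -/
theorem result :
    (∀ (U V E A D : Type) [Fintype U] [Fintype V] [Fintype E] [Nonempty E] [Fintype A]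
      [DecidableEq A] [Fintype D] (s : E → U) (t : E → V) (π : E → Equiv.Perm A)
      (x : U → A → D → ℝ) (y : V → A → D → ℝ) (lam ε : ℝ),
      HasGap s t lam → lam ≤ 1 → 0 < ε → ε ≤ 1 → 2 * ε - ε ^ 2 ≤ lam → SdpFeasible x y →
      (1 - ε) * Fintype.card E ≤ ∑ e, ∑ a, x (s e) a ⬝ᵥ y (t e) (π e a) →
      ∃ (L : U → A) (M : V → A),
        ((1 - (2 * ε - ε ^ 2) / lam) ^ 2 - Real.sqrt (2 * ε)) * Fintype.card E ≤
          ((Finset.univ.filter fun e => π e (L (s e)) = M (t e)).card : ℝ)) ∧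
    (∀ ρ : ℚ, 0 < ρ → ρ < 1 → ∀ δ : ℝ, 0 < δ →
      ∃ (U V E A D : Type) (_ : Fintype U) (_ : Fintype V) (_ : Fintype E) (_ : Nonempty E)
        (_ : Fintype A) (_ : DecidableEq A) (_ : Fintype D) (s : E → U) (t : E → V)
        (π : E → Equiv.Perm A) (x : U → A → D → ℝ) (y : V → A → D → ℝ),
        HasGap s t (1 - (ρ : ℝ) ^ 4) ∧ SdpFeasible x y ∧
        (ρ : ℝ) ^ 2 * Fintype.card E ≤ ∑ e, ∑ a, x (s e) a ⬝ᵥ y (t e) (π e a) ∧
        ∀ (L : U → A) (M : V → A),
          ((Finset.univ.filter fun e => π e (L (s e)) = M (t e)).card : ℝ) ≤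
            δ * Fintype.card E) := by
  refine ⟨?_, ?_⟩
  · intro U V E A D _ _ _ _ _ _ _ s t π x y lam ε hgap hlam1 hε hε1 hle hfeas hval
    classical
    by_contra hcon
    push Not at hcon
    have hneA : Nonempty (U → A) ∧ Nonempty (V → A) := by
      obtain ⟨z, hx, hy⟩ := hfeas.left
      constructor
      · by_contra hne
        rw [not_nonempty_iff, isEmpty_pi] at hne
        obtain ⟨u, hu⟩ := hne
        have h1 := (hx u).sum_norm
        rw [Fintype.sum_empty] at h1
        exact zero_ne_one h1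
      · by_contra hne
        rw [not_nonempty_iff, isEmpty_pi] at hne
        obtain ⟨v, hv⟩ := hne
        have h1 := (hy v).sum_norm
        rw [Fintype.sum_empty] at h1
        exact zero_ne_one h1
    obtain ⟨⟨L0⟩, ⟨M0⟩⟩ := hneA
    obtain ⟨p, -, hp⟩ := Finset.exists_max_image (Finset.univ : Finset ((U → A) × (V → A)))
      (fun p => (Finset.univ.filter fun e => π e (p.1 (s e)) = p.2 (t e)).card)
      ⟨(L0, M0), Finset.mem_univ _⟩
    have h1 := sdp_round s t π lam ε hlam1 hε hε1 hle hgap hfeas hval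
      ((Finset.univ.filter fun e => π e (p.1 (s e)) = p.2 (t e)).card : ℝ)
      (fun L M => by exact_mod_cast hp (L, M) (Finset.mem_univ _))
    have h2 := hcon p.1 p.2
    linarith
  · intro ρ hρ0 hρ1 δ hδ
    have hρ0' : (0 : ℝ) < ρ := by exact_mod_cast hρ0
    have hρ1' : (ρ : ℝ) < 1 := by exact_mod_cast hρ1
    -- write `ρ = 1 - 2 a / B`
    obtain ⟨a, B, hB, haB, hab⟩ : ∃ a B : ℕ, 0 < B ∧ 2 * a ≤ B ∧ (1 - 2 * a / B : ℝ) = ρ := by
      have hden : (0 : ℝ) < ρ.den := by exact_mod_cast ρ.pos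
      have hnum : 0 < ρ.num := Rat.num_pos.mpr hρ0
      have hlt : ρ.num < ρ.den := by
        have h3 : (ρ : ℝ) = ρ.num / ρ.den := by
          exact_mod_cast (Rat.num_div_den ρ).symm
        rw [h3, div_lt_one hden] at hρ1'
        exact_mod_cast hρ1'
      refine ⟨ρ.den - ρ.num.toNat, 2 * ρ.den, by have := ρ.pos; omega, by omega, ?_⟩
      have h1 : ρ.num.toNat ≤ ρ.den := by omega
      have h2 : ((ρ.num.toNat : ℕ) : ℝ) = ρ.num := by
        have : ((ρ.num.toNat : ℕ) : ℤ) = ρ.num := Int.toNat_of_nonneg hnum.le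
        exact_mod_cast this
      have h3 : (ρ : ℝ) = ρ.num / ρ.den := by
        exact_mod_cast (Rat.num_div_den ρ).symm
      rw [Nat.cast_sub h1, h2, h3]
      push_cast
      field_simp
      ring
    -- choose `j` and `k`
    obtain ⟨j, hj⟩ := exists_pow_lt_of_lt_one (half_pos hδ) hρ1'
    obtain ⟨k, hk⟩ : ∃ k : ℕ, 3 ^ j * Real.sqrt (1 / 2 ^ k) ≤ δ / 2 := by
      obtain ⟨k, hk⟩ := exists_pow_lt_of_lt_one
        (show (0 : ℝ) < (δ / 2 / 3 ^ j) ^ 2 by positivity) (show (1 / 2 : ℝ) < 1 by norm_num)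
      refine ⟨k, ?_⟩
      rw [mul_comm, ← le_div_iff₀ (by positivity)]
      apply Real.sqrt_le_iff.mpr
      refine ⟨by positivity, ?_⟩
      rw [← one_div_pow]
      exact hk.le
    refine ⟨Fn k, Fn k, KE k B, Gam k, Gam k × Gam k, inferInstance, inferInstance,
      inferInstance, ?_, inferInstance, inferInstance, inferInstance, ks k B, kt k a B,
      kp k a B, kvec k, kvec k, ?_, kvec_feasible, ?_, ?_⟩
    · have : Nonempty (Fin B) := ⟨⟨0, hB⟩⟩
      infer_instance
    · rw [← hab]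
      exact khasGap hB haB
    · rw [← hab]
      exact kval hB haB
    · intro L M
      refine (kvalue hB haB L M j).trans ?_
      apply mul_le_mul_of_nonneg_right _ (Nat.cast_nonneg _)
      rw [hab]
      linarith

end Pool.Agent.Results.MP_325f1f_lc.SdpExpander
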