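import Pool.Agent.H573R3.SL.All

/-!
Unique games and sum-of-squares of degree `n ^ (O(ε log (1/ε)))`.
-/

namespace Pool.Agent.Results.MP_325f1f_lc.SosNearLinearExponent

open Finset

/-- The span of the real functions of a labeling `x : V → A` that depend on at most `D` of the
labels `x v`. -/
def LowDegree (V A : Type) (D : ℕ) : Submodule ℝ ((V → A) → ℝ) :=
  Submodule.span ℝ {f | ∃ S : Finset V, S.card ≤ D ∧
    ∀ x y : V → A, (∀ v ∈ S, x v = y v) → f x = f y}

/-- `L` is a pseudo-expectation on labelings: a normalised linear functional which is nonnegative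
on the squares of all functions in `LowDegree V A D` (a solution of the sum-of-squares, or
Lasserre, relaxation of degree `2 D`; only the values on such products matter). -/
def IsPseudoExpectation {V A : Type} (D : ℕ) (L : ((V → A) → ℝ) →ₗ[ℝ] ℝ) : Prop :=
  L (fun _ => 1) = 1 ∧ ∀ f ∈ LowDegree V A D, 0 ≤ L (fun x => f x ^ 2)

/-- There is an absolute constant `C` such that for all `0 < ε ≤ γ < 1` and every unique game on
`n` vertices (any finite alphabet, any constraint graph): if
`D ≥ K * n ^ (K * ε * log (2 / ε))` with `K = C / γ ^ 4` and the relaxation of degree `D` has value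
at least `1 - ε`, then some labeling satisfies at least a fraction `1 - γ` of the edges. -/
theorem result : ∃ C : ℝ, 0 < C ∧ ∀ γ : ℝ, 0 < γ → γ < 1 →
    ∀ (V A E : Type) [Fintype V] [Fintype A] [DecidableEq A] [Fintype E]
      (s t : E → V) (π : E → Equiv.Perm A) (ε : ℝ) (D : ℕ) (L : ((V → A) → ℝ) →ₗ[ℝ] ℝ),
      0 < ε → ε ≤ γ →
      C / γ ^ 4 * (Fintype.card V : ℝ) ^ (C / γ ^ 4 * (ε * Real.log (2 / ε))) ≤ D →
      IsPseudoExpectation D L →
      (1 - ε) * (Fintype.card E : ℝ)
        ≤ ∑ e, L (fun x => if π e (x (s e)) = x (t e) then 1 else 0) →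
      ∃ x : V → A, (1 - γ) * (Fintype.card E : ℝ)
        ≤ ((univ.filter fun e => π e (x (s e)) = x (t e)).card : ℝ) := by
  obtain ⟨C, hC, h⟩ := Pool.Agent.H573R3.SL.all.1
  refine ⟨C, hC, ?_⟩
  intro γ hγ hγ1 V A E _ _ _ _ s t π ε D L hε hεγ hD hL hval
  classical
  refine h γ hγ hγ1 V A E s t π ε D L hε hεγ hD ⟨hL.1, ?_⟩ hval
  intro f hf
  have h1 := hL.2 f hf
  have h2 : (fun x => f x * f x) = fun x : V → A => f x ^ 2 := by
    funext x; ring
  rw [h2]
  exact h1

end Pool.Agent.Results.MP_325f1f_lc.SosNearLinearExponent
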