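import Mathlib
import Pool.Agent.H562R2.RankLift
import Pool.Agent.H562R2.FoldedCube

/-!
Dimension-free comparison of the threshold ranks of the constraint graph of a unique game and of
its label-extended graph, with the exact threshold constant `1/2`.
-/

set_option autoImplicit false

namespace Pool.Agent.Results.MP_325f1f_lc.ThresholdRank

open Pool.Agent.H562R2

/-- Upper bound for all unique games when `θ < lam / 2`, and failure of every bound depending on
the alphabet size and the threshold rank only when `θ = lam / 2`. -/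
theorem result :
    (∀ (V E : Type) [Fintype V] [DecidableEq V] [Fintype E] (s t : E → V),
      (∀ v, 0 < deg s t v) →
      ∀ (q : ℕ) (π : E → Equiv.Perm (Fin q)) (θ lam : ℝ), 0 < lam → θ < lam / 2 →
        (rankGE (extS (q := q) s) (extT t π) (1 - θ) : ℝ) ≤
          q * rankGT s t (1 - lam) / (1 - 2 * θ / lam) ^ 2) ∧
    (∀ N : ℕ, ∃ (V E : Type) (_ : Fintype V) (_ : DecidableEq V) (_ : Fintype E)
      (s t : E → V) (π : E → Equiv.Perm (Fin 2)) (lam : ℝ),
        0 < lam ∧ (∀ v, 0 < deg s t v) ∧ rankGT s t (1 - lam) = 1 ∧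
        N ≤ rankGE (extS (q := 2) s) (extT t π) (1 - lam / 2)) := by
  refine ⟨?_, ?_⟩
  · intro V E _ _ _ s t hdeg q π θ lam hlam hθ
    have h := rank_lift s t hdeg q π θ lam hlam (by linarith)
    have h1 : 0 < 1 - 2 * θ / lam := by
      rw [sub_pos, div_lt_one hlam]
      linarith
    rw [le_div_iff₀ (by positivity)]
    exact h
  · intro N
    refine ⟨Fin N → Bool, FE N, inferInstance, inferInstance, inferInstance, fs N, ft N, fπ N,
      4 / (N + 1 : ℝ), by positivity, ?_, frank_eq N, ?_⟩
    · intro v
      rw [fdeg]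
      omega
    · have h := fcount N
      have h1 : (1 : ℝ) - 4 / (N + 1 : ℝ) / 2 = 1 - 2 / (N + 1 : ℝ) := by ring
      rw [h1]
      exact le_trans (by omega) h

end Pool.Agent.Results.MP_325f1f_lc.ThresholdRank
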